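import Mathlib
import Pool.Agent.AE.Final

set_option autoImplicit false

namespace Pool.Agent.Results.MP_fe1fea_co.TriangleDisproof

open Pool.Agent.AE Filter

/-- Q1 is false, already for the triangle `K₃` (three edges): for every `c > 0` there are
arbitrarily large `n` with `f⁺_{K₃}(n) < c · max_e f⁻_{K₃-e}(n)`, so no constants `0 < c < C` work
for all large `n`.  (The definitions are in `Pool.Agent.AE.Defs`.) -/
theorem result :
    3 ≤ (⊤ : SimpleGraph (Fin 3)).edgeSet.ncard ∧
    ∀ c : ℝ, 0 < c → ∃ᶠ n : ℕ in atTop,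
      (upperThreshold (⊤ : SimpleGraph (Fin 3)) n : ℝ) <
        c * (maxLower (⊤ : SimpleGraph (Fin 3)) n : ℝ) := by
  refine ⟨?_, ?_⟩
  · rw [← SimpleGraph.coe_edgeFinset, Set.ncard_coe_finset,
      SimpleGraph.card_edgeFinset_top_eq_card_choose_two, Fintype.card_fin]
    decide
  · intro c hc
    rw [frequently_atTop]
    intro N
    exact ratio_small c hc N

end Pool.Agent.Results.MP_fe1fea_co.TriangleDisproof
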